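import Pool.Agent.Helper37.T5g.Ev
import Pool.Agent.Helper30.T5g.SizeDefs

/-!
# T5b (MP_12a1af): the modulus of a state, split levels, joint part

`NL m k l` (product of all digits below `l`, times `R_k`) is `RT m k s * JJ m k s l`, where `JJ` is
the product of the main digits, the buffer digits and the digits of the triple `s + 1`, if the
triples `k + 1, .., s` are complete at `l` and no later triple has begun.
-/

set_option autoImplicit false

namespace Pool.Agent.Helper48.T5g

open Finset Pool.Agent.Helper5.ET Pool.Agent.Helper27.T4 Pool.Agent.Helper37.T5g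
open Pool.Agent.Helper27.T5b Pool.Agent.Helper30.T5g
open Pool.Agent.Helper27.T5 (sp gw)

/-! ## products over the owners -/

section general

variable {α β : Type} [DecidableEq α] [DecidableEq β]
variable {ins : ℕ → ℕ} {mo : ℕ → α} {ex : ℕ → ℕ → β} {pa : α → ℕ} {pb : β → ℕ}

theorem NP_set (l : ℕ) (S : Finset (α ⊕ β)) (hS : ∀ i < l, ow ins mo ex i ∈ S) :
    NP ins mo ex pa pb l = ∏ f ∈ S, Sum.elim pa pb f ^ ct ins mo ex f l := by
  unfold NP ct
  rw [← prod_fiberwise_of_maps_to (s := range l) (t := S) (g := ow ins mo ex)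
    (fun i hi => hS i (mem_range.1 hi))]
  apply prod_congr rfl
  intro f _
  rw [prod_congr rfl (g := fun _ => Sum.elim pa pb f), prod_const]
  intro i hi
  rw [mem_filter] at hi
  rw [hi.2]

theorem ct_pos_of {f : α ⊕ β} {i l : ℕ} (hi : i < l) (h : ow ins mo ex i = f) :
    0 < ct ins mo ex f l :=
  card_pos.2 ⟨i, mem_filter.2 ⟨mem_range.2 hi, h⟩⟩

end general

/-! ## the concrete chain -/

/-- number of digits of the family `f` below `l` -/
noncomputable abbrev cT (m : Sq) (k : ℕ) (f : Fin 3 ⊕ Option (ℕ × Fin 3)) (l : ℕ) : ℕ :=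
  ct (ins m k) own (ex m k) f l

/-- number of main digits below `l` -/
noncomputable abbrev L1 (m : Sq) (k l : ℕ) : ℕ := l1 (ins m k) l

/-- the digits of a partially inserted triple -/
noncomputable def TJ (m : Sq) (k t l : ℕ) : ℕ :=
  ∏ f : Fin 3, pz k t f ^ cT m k (Sum.inr (some (t, f))) l

/-- main digits and buffer digits below `l` -/
noncomputable def J0 (m : Sq) (k l : ℕ) : ℕ :=
  (∏ f : Fin 3, pr f ^ cnt f (L1 m k l)) * 1000039 ^ cT m k (Sum.inr none) l

/-- the joint modulus with `s` split levels -/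
noncomputable def JJ (m : Sq) (k s l : ℕ) : ℕ := J0 m k l * TJ m k (s + 1) l

/-- at the index `l` the triples `k + 1, .., s` are complete and no triple `> s + 1` has begun -/
structure Cpl (m : Sq) (k s l : ℕ) : Prop where
  ks : k ≤ s
  full : ∀ t, k < t → t ≤ s → ∀ f, cT m k (Sum.inr (some (t, f))) l = zf m k t f
  low : ∀ t, t ≤ k → ∀ f, cT m k (Sum.inr (some (t, f))) l = 0
  high : ∀ t, s + 1 < t → ∀ f, cT m k (Sum.inr (some (t, f))) l = 0

theorem pz_prime (k t : ℕ) (f : Fin 3) : (pz k t f).Prime := Pool.Agent.Helper30.T5.sp_prime _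

theorem pe_some (k t : ℕ) (f : Fin 3) : pe k (some (t, f)) = pz k t f := rfl

theorem pe_none (k : ℕ) : pe k none = 1000039 := rfl

theorem cT_main (m : Sq) (k : ℕ) (f : Fin 3) (l : ℕ) : cT m k (Sum.inl f) l = cnt f (L1 m k l) := by
  rw [cT, ct_main, cnt]

theorem RT_pos (m : Sq) (k t : ℕ) : 0 < RT m k t := by
  unfold RT QT QF
  apply Nat.mul_pos (by positivity)
  apply prod_pos
  intro i _
  apply prod_pos
  intro f _
  exact pow_pos (pz_prime _ _ _).pos _

theorem RT_succ (m : Sq) (k t : ℕ) : RT m k (t + 1) = RT m k t * QT m k (t + 1) := by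
  unfold RT
  rw [prod_Icc_succ_top (by omega)]
  ring

theorem QT_pos (m : Sq) (k t : ℕ) : 0 < QT m k t := by
  unfold QT QF
  exact prod_pos (fun f _ => pow_pos (pz_prime _ _ _).pos _)

theorem RT_dvd (m : Sq) (k : ℕ) {s t : ℕ} (h : s ≤ t) : RT m k s ∣ RT m k t := by
  unfold RT
  apply Nat.mul_dvd_mul_left
  exact prod_dvd_prod_of_subset _ _ _ (Icc_subset_Icc_right h)

theorem RT_mul_prod (m : Sq) (k : ℕ) {s t : ℕ} (h : s ≤ t) :
    RT m k t = RT m k s * ∏ i ∈ Icc (s + 1) t, QT m k i := by
  induction t, h using Nat.le_induction with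
  | base => simp
  | succ t ht ih =>
    rw [RT_succ, ih, prod_Icc_succ_top (by omega)]
    ring

theorem NP_split {m : Sq} {k s l : ℕ} (h : Cpl m k s l) :
    NP (ins m k) own (ex m k) pr (pe k) l =
      (∏ t ∈ Icc (k + 1) s, QT m k t) * JJ m k s l := by
  classical
  rw [NP_set l ((univ.image Sum.inl ∪ {Sum.inr none}) ∪
    (Icc (k + 1) (s + 1) ×ˢ (univ : Finset (Fin 3))).image (fun q => Sum.inr (some q)))]
  · rw [prod_union, prod_union, prod_image, prod_singleton, prod_image, prod_product]
    · have h1 : ∏ x ∈ Icc (k + 1) (s + 1), ∏ y : Fin 3,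
          (Sum.elim pr (pe k) (Sum.inr (some (x, y)) : Fin 3 ⊕ Option (ℕ × Fin 3))) ^
            ct (ins m k) own (ex m k) (Sum.inr (some (x, y))) l =
          (∏ t ∈ Icc (k + 1) s, QT m k t) * TJ m k (s + 1) l := by
        rw [prod_Icc_succ_top (by have := h.ks; omega)]
        congr 1
        apply prod_congr rfl
        intro t ht
        rw [mem_Icc] at ht
        unfold QT QF
        apply prod_congr rfl
        intro f _
        rw [← h.full t (by omega) ht.2 f]
        rfl
      rw [h1]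
      unfold JJ J0
      have h2 : ∏ x : Fin 3, (Sum.elim pr (pe k) (Sum.inl x : Fin 3 ⊕ Option (ℕ × Fin 3))) ^
          ct (ins m k) own (ex m k) (Sum.inl x) l = ∏ f : Fin 3, pr f ^ cnt f (L1 m k l) := by
        apply prod_congr rfl
        intro f _
        rw [← cT_main]
        rfl
      rw [h2]
      simp only [Sum.elim_inr, pe_none]
      ring
    · intro a _ b _ hab
      simpa using hab
    · intro a _ b _ hab
      simpa using hab
    · rw [disjoint_left]
      intro x hx hx2
      simp only [mem_image, mem_univ, true_and] at hx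
      obtain ⟨f, rfl⟩ := hx
      simp at hx2
    · rw [disjoint_left]
      intro x hx hx2
      simp only [mem_union, mem_image, mem_univ, true_and, mem_singleton] at hx hx2
      obtain ⟨q, _, rfl⟩ := hx2
      simp at hx
  · intro i hi
    cases ho : ow (ins m k) own (ex m k) i with
    | inl f => simp
    | inr g =>
      cases g with
      | none => simp
      | some q =>
        obtain ⟨t, f⟩ := q
        have h1 : 0 < cT m k (Sum.inr (some (t, f))) l := ct_pos_of hi ho
        have h2 : k < t := by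
          by_contra hc
          rw [h.low t (by omega) f] at h1
          exact absurd h1 (lt_irrefl _)
        have h3 : t ≤ s + 1 := by
          by_contra hc
          rw [h.high t (by omega) f] at h1
          exact absurd h1 (lt_irrefl _)
        simp only [mem_union, mem_image, mem_product, mem_Icc, mem_univ, and_true]
        right
        exact ⟨(t, f), by omega, rfl⟩

/-- **the modulus of a state**: split part times joint part -/
theorem NL_eq {m : Sq} {k s l : ℕ} (h : Cpl m k s l) : NL m k l = RT m k s * JJ m k s l := by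
  unfold NL
  rw [NP_split h, RT_mul_prod m k h.ks]
  ring

/-! ## primes -/

theorem sp_ne_buffer (n : ℕ) : sp n ≠ 1000039 := by
  have h := Pool.Agent.Helper30.T5.lt_sp n
  omega

theorem mod_ne {k t t' : ℕ} (h1 : t < t') (h2 : t' < t + (k + 3)) :
    t % (k + 3) ≠ t' % (k + 3) := by
  intro h
  have h3 : (k + 3) ∣ t' - t := (Nat.modEq_iff_dvd' h1.le).1 h
  have h4 := Nat.le_of_dvd (by omega) h3
  omega

theorem pz_ne {k t t' : ℕ} (h : t % (k + 3) ≠ t' % (k + 3)) (f f' : Fin 3) :
    pz k t f ≠ pz k t' f' := by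
  intro h1
  exact h (Pool.Agent.Helper30.T5.idx_inj (Pool.Agent.Helper30.T5.sp_injective h1)).1

theorem pz_inj (k t : ℕ) : Function.Injective (pz k t) := by
  intro f f' h
  exact (Pool.Agent.Helper30.T5.idx_inj (Pool.Agent.Helper30.T5.sp_injective h)).2

theorem buffer_prime : Nat.Prime 1000039 := by norm_num

theorem cop_pr_pz (k t : ℕ) (g f : Fin 3) : Nat.Coprime (pr g) (pz k t f) :=
  Pool.Agent.Helper30.T5.coprime_pr_sp _ _

theorem cop_buffer_pz (k t : ℕ) (f : Fin 3) : Nat.Coprime 1000039 (pz k t f) :=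
  (Nat.coprime_primes buffer_prime (pz_prime k t f)).2 (sp_ne_buffer _).symm

theorem cop_pz_pz {k t t' : ℕ} (h : t % (k + 3) ≠ t' % (k + 3)) (f f' : Fin 3) :
    Nat.Coprime (pz k t f) (pz k t' f') :=
  (Nat.coprime_primes (pz_prime k t f) (pz_prime k t' f')).2 (pz_ne h f f')

theorem cop_QT_right {a : ℕ} {m : Sq} {k t : ℕ} (h : ∀ f, Nat.Coprime a (pz k t f)) :
    Nat.Coprime a (QT m k t) := by
  unfold QT QF
  exact Nat.Coprime.prod_right (fun f _ => (h f).pow_right _)

theorem cop_J0_QT (m : Sq) (k l t : ℕ) : Nat.Coprime (J0 m k l) (QT m k t) := by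
  unfold J0
  apply Nat.Coprime.mul_left
  · apply Nat.Coprime.prod_left
    intro g _
    exact (cop_QT_right (fun f => cop_pr_pz k t g f)).pow_left _
  · exact (cop_QT_right (fun f => cop_buffer_pz k t f)).pow_left _

theorem cop_TJ_QT {m : Sq} {k s t : ℕ} (h : s % (k + 3) ≠ t % (k + 3)) (l : ℕ) :
    Nat.Coprime (TJ m k s l) (QT m k t) := by
  unfold TJ
  apply Nat.Coprime.prod_left
  intro g _
  exact (cop_QT_right (fun f => cop_pz_pz h g f)).pow_left _

theorem cop_QT_QT {m : Sq} {k s t : ℕ} (h : s % (k + 3) ≠ t % (k + 3)) :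
    Nat.Coprime (QT m k s) (QT m k t) := by
  unfold QT QF
  apply Nat.Coprime.prod_left
  intro g _
  exact (cop_QT_right (fun f => cop_pz_pz h g f)).pow_left _

/-- the joint modulus is prime to the moduli of the last `k + 2` split levels -/
theorem cop_JJ_QT {m : Sq} {k s t l : ℕ} (h1 : t ≤ s) (h2 : s < t + (k + 2)) :
    Nat.Coprime (JJ m k s l) (QT m k t) := by
  unfold JJ
  exact Nat.Coprime.mul_left (cop_J0_QT m k l t)
    (cop_TJ_QT (mod_ne (by omega) (by omega)).symm l)

/-! ## the unit after `j` split levels -/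

/-- `N_x / R_j` -/
noncomputable def UN (m : Sq) (k j x : ℕ) : ℕ := NL m k x / RT m k j

theorem NL_pos (m : Sq) (k x : ℕ) : 0 < NL m k x := by
  unfold NL
  apply Nat.mul_pos (RT_pos _ _ _)
  apply NP_pos
  · exact fun f => (pr_prime f).pos
  · intro g
    cases g with
    | none => exact buffer_prime.pos
    | some q => exact (pz_prime k q.1 q.2).pos

theorem NL_dvd (m : Sq) (k : ℕ) {x y : ℕ} (h : x ≤ y) : NL m k x ∣ NL m k y :=
  Nat.mul_dvd_mul_left _ (NP_dvd h)

theorem UN_eq {m : Sq} {k s j x : ℕ} (h : Cpl m k s x) (hj : j ≤ s) :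
    UN m k j x = (∏ i ∈ Icc (j + 1) s, QT m k i) * JJ m k s x := by
  unfold UN
  rw [NL_eq h, RT_mul_prod m k hj, mul_assoc, Nat.mul_div_cancel_left _ (RT_pos _ _ _)]

theorem RT_dvd_NL {m : Sq} {k s j x : ℕ} (h : Cpl m k s x) (hj : j ≤ s) : RT m k j ∣ NL m k x := by
  rw [NL_eq h]
  exact (RT_dvd m k hj).mul_right _

theorem RT_mul_UN {m : Sq} {k j x : ℕ} (h : RT m k j ∣ NL m k x) : RT m k j * UN m k j x = NL m k x :=
  Nat.mul_div_cancel' h

theorem UN_pos {m : Sq} {k j x : ℕ} (h : RT m k j ∣ NL m k x) : 0 < UN m k j x := by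
  have h1 := RT_mul_UN h
  have h2 := NL_pos m k x
  rw [← h1] at h2
  exact Nat.pos_of_mul_pos_left h2

theorem UN_joint {m : Sq} {k s x : ℕ} (h : Cpl m k s x) : UN m k s x = JJ m k s x := by
  rw [UN_eq h le_rfl, Icc_eq_empty (by omega)]
  simp

/-- one more level -/
theorem UN_succ {m : Sq} {k j x : ℕ} (h : RT m k (j + 1) ∣ NL m k x) :
    UN m k j x = UN m k (j + 1) x * QT m k (j + 1) := by
  have e : NL m k x = RT m k j * (UN m k (j + 1) x * QT m k (j + 1)) := by
    rw [← RT_mul_UN h, RT_succ]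
    ring
  show NL m k x / RT m k j = _
  rw [e, Nat.mul_div_cancel_left _ (RT_pos _ _ _)]

theorem UN_mul_prod {m : Sq} {k j s x : ℕ} (hjs : j ≤ s) (h : RT m k s ∣ NL m k x) :
    UN m k j x = UN m k s x * ∏ i ∈ Icc (j + 1) s, QT m k i := by
  induction s, hjs using Nat.le_induction with
  | base => simp
  | succ s hs ih =>
    rw [ih ((RT_dvd m k (Nat.le_succ s)).trans h), UN_succ h, prod_Icc_succ_top (by omega)]
    ring

theorem UN_dvd {m : Sq} {k j x y : ℕ} (hxy : x ≤ y) (h : RT m k j ∣ NL m k x) :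
    UN m k j x ∣ UN m k j y := by
  have h2 := h.trans (NL_dvd m k hxy)
  have h3 := NL_dvd m k hxy
  rw [← RT_mul_UN h, ← RT_mul_UN h2] at h3
  exact Nat.dvd_of_mul_dvd_mul_left (RT_pos _ _ _) h3

theorem RT_dvd_NL_mono {m : Sq} {k j x y : ℕ} (hxy : x ≤ y) (h : RT m k j ∣ NL m k x) :
    RT m k j ∣ NL m k y := h.trans (NL_dvd m k hxy)

/-- the unit is prime to the moduli of the last `k + 2` split levels above it -/
theorem cop_UN {m : Sq} {k s j t x : ℕ} (h : Cpl m k s x) (hjs : j ≤ s) (ht : t ≤ j)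
    (hst : s < t + (k + 2)) : Nat.Coprime (UN m k j x) (QT m k t) := by
  rw [UN_eq h hjs]
  apply Nat.Coprime.mul_left
  · apply Nat.Coprime.prod_left
    intro i hi
    rw [mem_Icc] at hi
    exact cop_QT_QT (mod_ne (by omega) (by omega)).symm
  · exact cop_JJ_QT (by omega) hst

/-! ## a complete triple, a triple which has not begun -/

theorem TJ_full {m : Sq} {k t x : ℕ} (h : ∀ f, cT m k (Sum.inr (some (t, f))) x = zf m k t f) :
    TJ m k t x = QT m k t := by
  unfold TJ QT QF
  exact prod_congr rfl (fun f _ => by rw [h f])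

theorem TJ_zero {m : Sq} {k t x : ℕ} (h : ∀ f, cT m k (Sum.inr (some (t, f))) x = 0) :
    TJ m k t x = 1 := by
  unfold TJ
  exact prod_eq_one (fun f _ => by rw [h f, pow_zero])

/-- quiet positions: the triple `s + 1` has not begun -/
theorem JJ_quiet {m : Sq} {k s x : ℕ} (h : ∀ f, cT m k (Sum.inr (some (s + 1, f))) x = 0) :
    JJ m k s x = J0 m k x := by
  unfold JJ
  rw [TJ_zero h, mul_one]

/-- before the split of the complete triple `s + 1` -/
theorem JJ_full {m : Sq} {k s x : ℕ}
    (h : ∀ f, cT m k (Sum.inr (some (s + 1, f))) x = zf m k (s + 1) f) :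
    JJ m k s x = J0 m k x * QT m k (s + 1) := by
  unfold JJ
  rw [TJ_full h]

/-- **split**: the triple `s + 1` is complete -/
theorem Cpl.succ {m : Sq} {k s x : ℕ} (h : Cpl m k s x)
    (h1 : ∀ f, cT m k (Sum.inr (some (s + 1, f))) x = zf m k (s + 1) f) : Cpl m k (s + 1) x where
  ks := by have := h.ks; omega
  full := by
    intro t h2 h3 f
    rcases Nat.lt_or_ge s t with h4 | h4
    · obtain rfl : t = s + 1 := by omega
      exact h1 f
    · exact h.full t h2 h4 f
  low := h.low
  high := fun t ht f => h.high t (by omega) f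

end Pool.Agent.Helper48.T5g
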