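import Pool.Agent.Helper48.T5g.Int
import Pool.Agent.Helper37.T5g.Event
import Pool.Agent.Helper37.T5g.Prod
import Pool.Agent.Helper30.T5g.Front
import Pool.Agent.Helper30.T5g.Size
import Pool.Agent.Helper84.T5g.Defs

/-!
# T5b (MP_12a1af): integers of the states (moduli, fronts, units, codes)
-/

set_option autoImplicit false

namespace Pool.Agent.Helper48.T5g

open Finset Pool.Agent.Helper5.ET Pool.Agent.Helper27.T4 Pool.Agent.Helper37.T5g
open Pool.Agent.Helper27.T5b Pool.Agent.Helper30.T5g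
open Pool.Agent.Helper22.HW Pool.Agent.Helper57.T5
open Pool.Agent.Helper84.T5g (JF Key pJ aJ Jn mL sL bL rL QQ ef FF cmp0 c0 XJ okeyF okey Ss cs Ys Un Vw pJ_prime pJ_inj preJ maskJ)
open Pool.Agent.Helper27.T5 (sp gw)

variable {m : Sq} {k : ℕ}

/-! ## the joint modulus -/

theorem Jn_eq (m : Sq) (k s x : ℕ) : Jn m k s x = J0 m k x * TJ m k (s + 1) x := by
  have h1 : ∏ i : Fin 4, pJ k s (Sum.inr i) ^ aJ m k s x (Sum.inr i) =
      1000039 ^ cT m k (Sum.inr none) x * TJ m k (s + 1) x := Fin.prod_univ_succ _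
  have h2 : ∏ f : Fin 3, pJ k s (Sum.inl f) ^ aJ m k s x (Sum.inl f) =
      ∏ f : Fin 3, pr f ^ cnt f (L1 m k x) := by
    apply prod_congr rfl
    intro f _
    rw [← cT_main]
    rfl
  unfold Jn NN
  rw [Fintype.prod_sum_type, h1, h2, J0, mul_assoc]

theorem Jn_eq_JJ (m : Sq) (k s x : ℕ) : Jn m k s x = JJ m k s x := Jn_eq m k s x

theorem Jn_pos (m : Sq) (k s x : ℕ) : 0 < Jn m k s x := NN_pos (pJ_prime k s) _

theorem aJ_mono (m : Sq) (k s : ℕ) {x y : ℕ} (h : x ≤ y) : aJ m k s x ≤ aJ m k s y := by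
  rintro (f | i)
  · exact ct_mono _ h
  · refine Fin.cases ?_ (fun f => ?_) i
    · exact ct_mono _ h
    · exact ct_mono _ h

theorem Jn_dvd (m : Sq) (k s : ℕ) {x y : ℕ} (h : x ≤ y) : Jn m k s x ∣ Jn m k s y :=
  NN_dvd _ (aJ_mono m k s h)

theorem Jn_le (m : Sq) (k s : ℕ) {x y : ℕ} (h : x ≤ y) : Jn m k s x ≤ Jn m k s y :=
  Nat.le_of_dvd (Jn_pos _ _ _ _) (Jn_dvd m k s h)

/-- **the modulus of a position** -/
theorem NL_eq_Jn {s x : ℕ} (h : Cpl m k s x) : NL m k x = RT m k s * Jn m k s x := by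
  rw [NL_eq h, Jn_eq_JJ]

/-- **the joint modulus is prime to the last `k + 2` split triples** -/
theorem cop_Jn_QT {s t x : ℕ} (h1 : t ≤ s) (h2 : s < t + (k + 2)) :
    Nat.Coprime (Jn m k s x) (QT m k t) := by
  rw [Jn_eq_JJ]
  exact cop_JJ_QT h1 h2

theorem cop_Jn_QQ {s t x : ℕ} (ht : t < k + 2) :
    Nat.Coprime (Jn m k s x) (QQ m k s t) := cop_Jn_QT (Nat.sub_le _ _) (by omega)

theorem cop_Jn_LL {s t x : ℕ} (ht : t ≤ k + 2) :
    Nat.Coprime (Jn m k s x) (LL (QQ m k s) t) := by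
  unfold LL
  apply Nat.Coprime.prod_right
  intro i hi
  rw [mem_range] at hi
  exact cop_Jn_QQ (by omega)

theorem cop_QQ_QQ {s i j : ℕ} (hij : i < j) (hj : j ≤ s) (hk : j < i + (k + 3)) :
    Nat.Coprime (QQ m k s i) (QQ m k s j) := by
  unfold Pool.Agent.Helper84.T5g.QQ
  exact cop_QT_QT (mod_ne (by omega) (by omega)).symm

/-- the moduli of the static levels above the level `t` are prime to it -/
theorem cop_LL_QQ {s t : ℕ} (ht : t ≤ s) (htk : t ≤ k + 2) :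
    Nat.Coprime (LL (QQ m k s) t) (QQ m k s t) := by
  unfold LL
  apply Nat.Coprime.prod_left
  intro i hi
  rw [mem_range] at hi
  exact cop_QQ_QQ hi ht (by omega)

theorem QQ_pos (m : Sq) (k s t : ℕ) : 0 < QQ m k s t := QT_pos _ _ _

theorem LL_QQ_pos (m : Sq) (k s t : ℕ) : 0 < LL (QQ m k s) t := LL_pos (fun i _ => QQ_pos m k s i)

/-- one level more: `LL (QQ (s + 1)) (t + 1) = QT (s + 1) * LL (QQ s) t` -/
theorem QQ_succ (m : Sq) (k s t : ℕ) : QQ m k (s + 1) (t + 1) = QQ m k s t := by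
  unfold Pool.Agent.Helper84.T5g.QQ
  rw [Nat.add_sub_add_right]

theorem LL_QQ_succ (m : Sq) (k s t : ℕ) : LL (QQ m k (s + 1)) (t + 1) =
    QT m k (s + 1) * LL (QQ m k s) t := by
  unfold LL
  rw [prod_range_succ']
  simp only [QQ_succ]
  rw [mul_comm]
  rfl

/-- product of the moduli of the static levels as a quotient -/
theorem RT_mul_LL {s t : ℕ} (ht : t ≤ s) : RT m k (s - t) * LL (QQ m k s) t = RT m k s := by
  induction t with
  | zero => simp [LL]
  | succ t ih =>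
    rw [LL_succ, ← ih (by omega)]
    have e : s - t = (s - (t + 1)) + 1 := by omega
    rw [e, RT_succ]
    show _ * (_ * QT m k (s - t)) = _
    rw [e]
    ring

/-! ## positions -/

theorem mL_mono (m : Sq) (k : ℕ) : Monotone (mL m k) := l1_mono _

theorem mL_sub_le (m : Sq) (k : ℕ) {l x : ℕ} (h : l ≤ x) : mL m k x ≤ mL m k l + (x - l) :=
  l1_sub_le _ h

theorem ut_mono (hm : m.Ok) : Monotone (ut m) := monotone_nat_of_le_succ (fun t => by
  have h1 := bb_le_ut m (t + 1)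
  have h2 : bb (kt m t + 1) ≤ bb (kt m (t + 1)) :=
    bb_strictMono.monotone (kt_strictMono hm (Nat.lt_succ_self t))
  have h3 := bb_add_len (kt m t)
  unfold ut at *
  omega)

/-- positions which are not too far after the special era of the triple `s + 1` -/
theorem le_ut_of (hm : m.Ok) {s y : ℕ} (h : y ≤ 3 * bb (kt m (s + 1))) : y ≤ ut m (s + 2) := by
  have h1 : 2 ^ 249 * bb (kt m (s + 1)) ≤ bb (kt m (s + 2)) := bb_kt_succ hm (s + 1)
  have h2 := bb_le_ut m (s + 2)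
  have h3 : 3 * bb (kt m (s + 1)) ≤ 2 ^ 249 * bb (kt m (s + 1)) :=
    Nat.mul_le_mul_right _ (by
      calc 3 ≤ 2 ^ 2 := by norm_num
        _ ≤ 2 ^ 249 := Nat.pow_le_pow_right (by norm_num) (by norm_num))
  omega

theorem nD_le_bb (hm : m.Ok) (k s : ℕ) :
    nD m k (s + 1) + Zt m (s + 1) ≤ 2 * bb (kt m (s + 1)) := by
  have h1 := nD_le hm k s
  have h2 := len_bounds (kt m (s + 1))
  omega

/-- the triple `s + 2` has not begun at `x` if `l` is before the DROP of the triple `s + 1` and `x`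
is at most `SS (s + 1)` above `l` -/
theorem mL_le_ut (hm : m.Ok) {s l x : ℕ} (h : mL m k l ≤ nD m k (s + 1)) (hlx : l ≤ x)
    (hx : x ≤ l + SS m (s + 1)) : mL m k x ≤ ut m (s + 2) := by
  apply le_ut_of hm
  have h1 := mL_sub_le m k hlx
  have h2 := nD_le_bb hm k s
  have h3 := kt_spec m (s + 1)
  have h4 := SS_mono m (Nat.le_succ (s + 1))
  simp only [Nat.succ_eq_add_one] at h4
  omega

/-- the SPLIT of the triple `sL + 1` lies after the position -/
theorem mL_lt_nS (hm : m.Ok) {l : ℕ} (hl : bb 0 ≤ mL m k l) :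
    mL m k l < nS m k (sL m k l + 1) := by
  by_contra hc
  have := (lt_sv_iff hm (k_le_sv hm k _) hl).2 (not_lt.1 hc)
  exact absurd this (lt_irrefl _)

theorem mL_le_nD (hm : m.Ok) {l : ℕ} (hl : bb 0 ≤ mL m k l) :
    mL m k l ≤ nD m k (sL m k l + 1) :=
  (mL_lt_nS hm hl).le.trans (nE_le_nD m k _).2.2

theorem k_le_sL (hm : m.Ok) (k l : ℕ) : k ≤ sL m k l := k_le_sv hm k _

/-- completeness at a position -/
theorem Cpl_of (hm : m.Ok) {s x : ℕ} (hx : bb 0 ≤ mL m k x) (hk : k ≤ s)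
    (hs : s ≤ sL m k x) (h2 : mL m k x ≤ ut m (s + 2)) : Cpl m k s x where
  ks := hk
  full := fun T h3 h4 f => ct_split hm h3 f (h4.trans hs) hx
  low := fun T h3 f => ct_some_le hm h3 f x
  high := fun T h3 f => ct_before hm f (h2.trans (ut_mono hm (by omega)))

theorem sL_mono (hm : m.Ok) (k : ℕ) : Monotone (sL m k) := fun _ _ h =>
  sv_mono hm k (mL_mono m k h)

/-- fronts are near -/
theorem ez_le_SS (hm : m.Ok) (t l : ℕ) : ez m t l ≤ l + SS m t := by
  have := ez_sub_le hm t l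
  have := lt_ez hm t l
  omega

/-- **completeness** between a state and its joint front -/
theorem Cpl_state (hm : m.Ok) {l x : ℕ} (hl : bb 0 ≤ mL m k l) (hlx : l ≤ x)
    (hx : x ≤ ez m (sL m k l + 1) l) : Cpl m k (sL m k l) x := by
  refine Cpl_of hm (hl.trans (mL_mono m k hlx)) (k_le_sL hm k l) (sL_mono hm k hlx) ?_
  exact mL_le_ut hm (mL_le_nD hm hl) hlx (hx.trans (ez_le_SS hm _ _))

theorem ef_le (hm : m.Ok) (l t : ℕ) : ef m k l t ≤ ez m (sL m k l) l :=
  ez_le hm (Nat.sub_le _ _) l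

theorem lt_ef (hm : m.Ok) (l t : ℕ) : l < ef m k l t := lt_ez hm _ _

theorem Cpl_ef (hm : m.Ok) {l : ℕ} (hl : bb 0 ≤ mL m k l) (t : ℕ) :
    Cpl m k (sL m k l) (ef m k l t) :=
  Cpl_state hm hl (lt_ef hm l t).le ((ef_le hm l t).trans (ez_le hm (Nat.le_succ _) l))

/-- **the modulus of a state** -/
theorem NL_state (hm : m.Ok) {l : ℕ} (hl : bb 0 ≤ mL m k l) :
    NL m k l = RT m k (sL m k l) * Jn m k (sL m k l) l :=
  NL_eq_Jn (Cpl_state hm hl le_rfl (lt_ez hm _ _).le)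

theorem NL_ef (hm : m.Ok) {l : ℕ} (hl : bb 0 ≤ mL m k l) (t : ℕ) :
    NL m k (ef m k l t) = RT m k (sL m k l) * FF m k l t :=
  NL_eq_Jn (Cpl_ef hm hl t)

theorem bL_le_sL (hm : m.Ok) (k l : ℕ) : bL m k l ≤ sL m k l := by
  have h1 := (dv_le_sv m k (mL m k l)).1
  unfold Pool.Agent.Helper84.T5g.bL Pool.Agent.Helper84.T5g.sL
  omega

theorem rL_bounds (hm : m.Ok) (k l : ℕ) : k ≤ rL m k l ∧ rL m k l ≤ k + 1 := by
  have h1 := dv_le_sv m k (mL m k l)
  have h2 := k_le_dv hm k (mL m k l)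
  unfold Pool.Agent.Helper84.T5g.rL Pool.Agent.Helper84.T5g.bL Pool.Agent.Helper84.T5g.sL
  omega

theorem rL_le_sL (m : Sq) (k l : ℕ) : rL m k l ≤ sL m k l := Nat.sub_le _ _

theorem sL_sub_rL (hm : m.Ok) (k l : ℕ) : sL m k l - rL m k l = bL m k l := by
  have := bL_le_sL hm k l
  unfold Pool.Agent.Helper84.T5g.rL
  omega

/-- **the unit** -/
theorem Un_mul_RT (hm : m.Ok) {l : ℕ} (hl : bb 0 ≤ mL m k l) :
    Un m k l * RT m k (bL m k l) = NL m k l := by
  rw [NL_state hm hl, ← RT_mul_LL (rL_le_sL m k l), sL_sub_rL hm]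
  unfold Pool.Agent.Helper84.T5g.Un
  ring

end Pool.Agent.Helper48.T5g
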