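import Pool.Agent.Helper48.T5g.EvSplit

/-!
# T5b (MP_12a1af): the joint code of the lower state of a SPLIT
-/

set_option autoImplicit false

namespace Pool.Agent.Helper48.T5g

open Finset Pool.Agent.Helper27.T4 Pool.Agent.Helper37.T5g
open Pool.Agent.Helper5.ET (pr pr_prime pr_inj bb era own cnt Nj ordK iso pre mask)
open Pool.Agent.Helper27.T5b Pool.Agent.Helper30.T5g
open Pool.Agent.Helper22.HW Pool.Agent.Helper57.T5 Pool.Agent.Helper39.T5
open Pool.Agent.Helper84.T5g (JF Key pJ aJ Jn mL sL bL rL QQ ef FF cmp0 c0 XJ okeyF okey Ss cs Ys Un Vw pJ_prime pJ_inj preJ maskJ Mk)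
open Pool.Agent.Helper54.T5 (crt crt_left crt_right crt_lt)

variable {m : Sq} {k : ℕ}

/-- uniqueness of the number in two classes -/
theorem eq_crt {A Q c r s : ℕ} (h : A.Coprime Q) (hA : 0 < A) (hQ : 0 < Q) (hc : c < A * Q)
    (h1 : c ≡ r [MOD A]) (h2 : c ≡ s [MOD Q]) : c = crt A Q r s := by
  have h3 : c ≡ crt A Q r s [MOD A * Q] :=
    (Nat.modEq_and_modEq_iff_modEq_mul h).1
      ⟨h1.trans (crt_left h r s).symm, h2.trans (crt_right h r s).symm⟩
  rw [Nat.ModEq, Nat.mod_eq_of_lt hc, Nat.mod_eq_of_lt (crt_lt h hA hQ r s)] at h3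
  exact h3

/-- the value of a code with another exponent -/
theorem cast_congr {p a b c x h : ℕ} (hab : a = b)
    (e : ((c : ℕ) : ZMod (p ^ a)) = Lg p a x + ((h : ℕ) : ZMod (p ^ a))) :
    ((c : ℕ) : ZMod (p ^ b)) = Lg p b x + ((h : ℕ) : ZMod (p ^ b)) := by
  subst hab
  exact e

/-- the value of a code with another prime and another exponent -/
theorem cast_congr2 {p q a b c x h : ℕ} (hpq : p = q) (hab : a = b)
    (e : ((c : ℕ) : ZMod (p ^ a)) = Lg p a x + ((h : ℕ) : ZMod (p ^ a))) :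
    ((c : ℕ) : ZMod (q ^ b)) = Lg q b x + ((h : ℕ) : ZMod (q ^ b)) := by
  subst hpq
  subst hab
  exact e

theorem pJ_inl (k s : ℕ) (f : Fin 3) : pJ k s (Sum.inl f) = pr f := rfl

theorem pJ_buf (k s : ℕ) : pJ k s (Sum.inr 0) = 1000039 := rfl

theorem pJ_new (k s : ℕ) (f : Fin 3) : pJ k s (Sum.inr f.succ) = pz k (s + 1) f := rfl

theorem aJ_inl (m : Sq) (k s x : ℕ) (f : Fin 3) : aJ m k s x (Sum.inl f) = cT m k (Sum.inl f) x := rfl

theorem aJ_buf (m : Sq) (k s x : ℕ) : aJ m k s x (Sum.inr 0) = cT m k (Sum.inr none) x := rfl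

theorem aJ_new (m : Sq) (k s x : ℕ) (f : Fin 3) :
    aJ m k s x (Sum.inr f.succ) = cT m k (Sum.inr (some (s + 1, f))) x := rfl

/-- two numbers with equal residues -/
theorem cast_eq_of {p q a b c c' x h : ℕ} (hpq : p = q) (hab : a = b)
    (e : ((c : ℕ) : ZMod (p ^ a)) = Lg p a x + ((h : ℕ) : ZMod (p ^ a)))
    (e' : ((c' : ℕ) : ZMod (q ^ b)) = Lg q b x + ((h : ℕ) : ZMod (q ^ b))) :
    ((c : ℕ) : ZMod (q ^ b)) = c' := (cast_congr2 hpq hab e).trans e'.symm

theorem cast_eq_back {q q' b b' c c' : ℕ} (hq : q' = q) (hb : b' = b)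
    (e : ((c : ℕ) : ZMod (q ^ b)) = c') : ((c : ℕ) : ZMod (q' ^ b')) = c' := by
  subst hq
  subst hb
  exact e

theorem maskJ_empty (x : JF → ℕ) : maskJ ∅ x = fun _ => 0 := by
  funext i
  simp [maskJ]

/-- the number `g y` of the newborn triple: residues `Lg + w (Key.J l' (inr (f + 1)) 0)` -/
noncomputable def gS (m : Sq) (k s l' : ℕ) (w : Key → ℕ) (y : Fin 3 → ℕ) : ℕ :=
  cv (Pool.Agent.Helper84.T5g.pz_prime k (s + 1)) (Pool.Agent.Helper84.T5g.pz_inj k (s + 1))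
    (zf m k (s + 1)) (fun f => Lg (pz k (s + 1) f) (zf m k (s + 1) f) (y f) +
      ((w (Key.J l' (Sum.inr f.succ) (fun _ => 0)) : ℕ) :
        ZMod (pz k (s + 1) f ^ zf m k (s + 1) f)))

theorem gS_lt (m : Sq) (k s l' : ℕ) (w : Key → ℕ) (y : Fin 3 → ℕ) :
    gS m k s l' w y < QT m k (s + 1) := cv_lt _ _ _ _

theorem gS_cast (m : Sq) (k s l' : ℕ) (w : Key → ℕ) (y : Fin 3 → ℕ) (f : Fin 3) :
    ((gS m k s l' w y : ℕ) : ZMod (pz k (s + 1) f ^ zf m k (s + 1) f)) =
      Lg (pz k (s + 1) f) (zf m k (s + 1) f) (y f) +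
        ((w (Key.J l' (Sum.inr f.succ) (fun _ => 0)) : ℕ) :
          ZMod (pz k (s + 1) f ^ zf m k (s + 1) f)) :=
  cv_cast_comp (Pool.Agent.Helper84.T5g.pz_prime k (s + 1))
    (Pool.Agent.Helper84.T5g.pz_inj k (s + 1)) _ _ f

namespace SplitP

variable {s l' l : ℕ}

/-- **the joint code of the lower state**: `c` = any number with the residues of the main families
and of the buffer family, `g` = any number with the residues of the triple `s + 1` -/
theorem c0_eq_crt (hm : m.Ok) (h : SplitP m k s l' l) (w : Key → ℕ) (x : JF → ℕ) (c g : ℕ)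
    (hc : ∀ f : Fin 3, ((c : ℕ) : ZMod (pr f ^ cT m k (Sum.inl f) (ef m k l' 0))) =
      Lg (pr f) (cT m k (Sum.inl f) (ef m k l' 0)) (x (Sum.inl f)) +
        ((w (Key.J l' (Sum.inl f) (maskJ (preJ m k l' (Sum.inl f)) x)) : ℕ) :
          ZMod (pr f ^ cT m k (Sum.inl f) (ef m k l' 0))))
    (hb : ((c : ℕ) : ZMod (1000039 ^ cT m k (Sum.inr none) (ef m k l' 0))) =
      Lg 1000039 (cT m k (Sum.inr none) (ef m k l' 0)) (x (Sum.inr 0)) +
        ((w (Key.J l' (Sum.inr 0) (fun _ => 0)) : ℕ) :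
          ZMod (1000039 ^ cT m k (Sum.inr none) (ef m k l' 0))))
    (hg : ∀ f : Fin 3, ((g : ℕ) : ZMod (pz k (s + 1) f ^ zf m k (s + 1) f)) =
      Lg (pz k (s + 1) f) (zf m k (s + 1) f) (x (Sum.inr f.succ)) +
        ((w (Key.J l' (Sum.inr f.succ) (fun _ => 0)) : ℕ) :
          ZMod (pz k (s + 1) f ^ zf m k (s + 1) f))) :
    c0 m k l' w x = crt (Jn m k (s + 1) (ef m k l' 0)) (QT m k (s + 1)) c g := by
  have hx1 : l' ≤ ef m k l' 0 := (lt_ef hm l' 0).le
  have hx2 : ef m k l' 0 ≤ l + SS m (s + 1) := by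
    have h1 := ef_le (k := k) hm l' 0
    rw [h.s'] at h1
    have h2 := ez_le_SS hm s l'
    have h3 := SS_mono m (Nat.le_succ s)
    have h4 := h.le
    simp only [Nat.succ_eq_add_one] at h3
    omega
  have hcop : (Jn m k (s + 1) (ef m k l' 0)).Coprime (QT m k (s + 1)) :=
    cop_Jn_QT le_rfl (by omega)
  have hcast := c0_cast m k l' w x
  have hlt := c0_lt m k l' w x
  rw [h.FF_lower hm 0] at hlt
  have hG : Gf m k s l' (0 + 1) = Jn m k (s + 1) (ef m k l' 0) := by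
    rw [h.ef_lower]
    rfl
  rw [hG] at hlt
  rw [h.s'] at hcast
  refine eq_crt hcop (Jn_pos _ _ _ _) (QT_pos _ _ _) hlt ?_ ?_
  · rw [← ZMod.natCast_eq_natCast_iff, Jn,
      natCast_eq_iff (pJ_prime k (s + 1)) (pJ_inj k (s + 1))]
    rintro (f | i)
    · exact cast_eq_back (pJ_inl k (s + 1) f) (aJ_inl m k (s + 1) _ f)
        (cast_eq_of (pJ_inl k s f) (aJ_inl m k s _ f) (hcast (Sum.inl f)) (hc f))
    · refine Fin.cases ?_ (fun f => ?_) i
      · have h1 := hcast (Sum.inr 0)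
        have h2 : maskJ (preJ m k l' (Sum.inr 0)) x = fun _ => 0 := maskJ_empty x
        rw [h2] at h1
        exact cast_eq_back (pJ_buf k (s + 1)) (aJ_buf m k (s + 1) _)
          (cast_eq_of (pJ_buf k s) (aJ_buf m k s _) h1 hb)
      · have h1 := h.aJ_newborn hm hx1 hx2 f
        rw [h1, pow_zero]
        exact Subsingleton.elim _ _
  · show c0 m k l' w x ≡ g [MOD NN (pz k (s + 1)) (zf m k (s + 1))]
    rw [← ZMod.natCast_eq_natCast_iff,
      natCast_eq_iff (Pool.Agent.Helper84.T5g.pz_prime k (s + 1))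
        (Pool.Agent.Helper84.T5g.pz_inj k (s + 1))]
    intro f
    have h1 := hcast (Sum.inr f.succ)
    have h2 : maskJ (preJ m k l' (Sum.inr f.succ)) x = fun _ => 0 := maskJ_empty x
    rw [h2] at h1
    exact cast_eq_of (pJ_new k s f) (h.aJ_full hm hx1 hx2 f) h1 (hg f)

/-- the residue modulo `QT (s + 1)` of the joint code of the lower state -/
theorem c0_mod_QT (hm : m.Ok) (h : SplitP m k s l' l) (w : Key → ℕ) (x : JF → ℕ) :
    c0 m k l' w x ≡ gS m k s l' w (fun f => x (Sum.inr f.succ)) [MOD QT m k (s + 1)] := by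
  have hx1 : l' ≤ ef m k l' 0 := (lt_ef hm l' 0).le
  have hx2 : ef m k l' 0 ≤ l + SS m (s + 1) := by
    have h1 := ef_le (k := k) hm l' 0
    rw [h.s'] at h1
    have h2 := ez_le_SS hm s l'
    have h3 := SS_mono m (Nat.le_succ s)
    have h4 := h.le
    simp only [Nat.succ_eq_add_one] at h3
    omega
  have hcast := c0_cast m k l' w x
  rw [h.s'] at hcast
  show c0 m k l' w x ≡ _ [MOD NN (pz k (s + 1)) (zf m k (s + 1))]
  rw [← ZMod.natCast_eq_natCast_iff,
    natCast_eq_iff (Pool.Agent.Helper84.T5g.pz_prime k (s + 1))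
      (Pool.Agent.Helper84.T5g.pz_inj k (s + 1))]
  intro f
  have h1 := hcast (Sum.inr f.succ)
  have h2 : maskJ (preJ m k l' (Sum.inr f.succ)) x = fun _ => 0 := maskJ_empty x
  rw [h2] at h1
  exact cast_eq_of (pJ_new k s f) (h.aJ_full hm hx1 hx2 f) h1
    (gS_cast m k s l' w (fun f => x (Sum.inr f.succ)) f)

/-- **in terms of `cv`**: `r` = any residues in the numbering of the upper state which agree with
the code of the lower state in the main families and in the buffer family -/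
theorem c0_eq_crt_cv (hm : m.Ok) (h : SplitP m k s l' l) (w : Key → ℕ) (x : JF → ℕ)
    (r : ∀ i, ZMod (pJ k (s + 1) i ^ aJ m k (s + 1) (ef m k l' 0) i))
    (hc : ∀ f : Fin 3, r (Sum.inl f) =
      Lg (pr f) (cT m k (Sum.inl f) (ef m k l' 0)) (x (Sum.inl f)) +
        ((w (Key.J l' (Sum.inl f) (maskJ (preJ m k l' (Sum.inl f)) x)) : ℕ) :
          ZMod (pr f ^ cT m k (Sum.inl f) (ef m k l' 0))))
    (hb : r (Sum.inr 0) =
      Lg 1000039 (cT m k (Sum.inr none) (ef m k l' 0)) (x (Sum.inr 0)) +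
        ((w (Key.J l' (Sum.inr 0) (fun _ => 0)) : ℕ) :
          ZMod (1000039 ^ cT m k (Sum.inr none) (ef m k l' 0)))) :
    c0 m k l' w x = crt (Jn m k (s + 1) (ef m k l' 0)) (QT m k (s + 1))
      (cv (pJ_prime k (s + 1)) (pJ_inj k (s + 1)) (aJ m k (s + 1) (ef m k l' 0)) r)
      (gS m k s l' w (fun f => x (Sum.inr f.succ))) := by
  refine h.c0_eq_crt hm w x _ _ ?_ ?_ ?_
  · intro f
    rw [← hc f]
    exact cv_cast_comp (pJ_prime k (s + 1)) (pJ_inj k (s + 1)) _ r (Sum.inl f)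
  · rw [← hb]
    exact cv_cast_comp (pJ_prime k (s + 1)) (pJ_inj k (s + 1)) _ r (Sum.inr 0)
  · intro f
    exact gS_cast m k s l' w _ f

end SplitP

end Pool.Agent.Helper48.T5g
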