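import Pool.Agent.Helper48.T5g.EvInt
import Pool.Agent.Helper22.SL.Defs

/-!
# T5b (MP_12a1af): the codes of the levels of a state
-/

set_option autoImplicit false

namespace Pool.Agent.Helper48.T5g

open Finset Pool.Agent.Helper27.T4 Pool.Agent.Helper37.T5g
open Pool.Agent.Helper5.ET (pr pr_prime pr_inj bb era own cnt Nj ordK iso pre mask)
open Pool.Agent.Helper27.T5b Pool.Agent.Helper30.T5g
open Pool.Agent.Helper22.HW Pool.Agent.Helper57.T5 Pool.Agent.Helper39.T5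
open Pool.Agent.Helper84.T5g (JF Key pJ aJ Jn mL sL bL rL QQ ef FF cmp0 c0 XJ okeyF okey Ss cs Ys Un Vw pJ_prime pJ_inj preJ maskJ Mk)
open Pool.Agent.Helper22.SL (rk3)

variable {m : Sq} {k : ℕ}

/-! ## coprimality with the primes of a triple -/

theorem cop_J0_pz (m : Sq) (k x t : ℕ) (f : Fin 3) : Nat.Coprime (J0 m k x) (pz k t f) := by
  unfold J0
  apply Nat.Coprime.mul_left
  · apply Nat.Coprime.prod_left
    intro g _
    exact (cop_pr_pz k t g f).pow_left _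
  · exact (cop_buffer_pz k t f).pow_left _

theorem cop_TJ_pz {s t : ℕ} (h : s % (k + 3) ≠ t % (k + 3)) (x : ℕ) (f : Fin 3) :
    Nat.Coprime (TJ m k s x) (pz k t f) := by
  unfold TJ
  apply Nat.Coprime.prod_left
  intro g _
  exact (cop_pz_pz h g f).pow_left _

theorem cop_QT_pz {s t : ℕ} (h : s % (k + 3) ≠ t % (k + 3)) (f : Fin 3) :
    Nat.Coprime (QT m k s) (pz k t f) := by
  unfold QT QF
  apply Nat.Coprime.prod_left
  intro g _
  exact (cop_pz_pz h g f).pow_left _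

theorem cop_Jn_pz {s t x : ℕ} (h1 : t ≤ s) (h2 : s < t + (k + 2)) (f : Fin 3) :
    Nat.Coprime (Jn m k s x) (pz k t f) := by
  rw [Jn_eq]
  exact Nat.Coprime.mul_left (cop_J0_pz m k x t f)
    (cop_TJ_pz (mod_ne (by omega) (by omega)).symm x f)

theorem cop_LL_pz {s t : ℕ} (ht : t ≤ s) (htk : t ≤ k + 2) (f : Fin 3) :
    Nat.Coprime (LL (QQ m k s) t) (pz k (s - t) f) := by
  unfold LL
  apply Nat.Coprime.prod_left
  intro i hi
  rw [mem_range] at hi
  exact cop_QT_pz (mod_ne (by omega) (by omega)).symm f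

/-! ## the static levels -/

/-- number of digits of a static level -/
theorem rL_le_succ (hm : m.Ok) {l t : ℕ} (ht : t < rL m k l) : t ≤ k :=
  Nat.lt_succ_iff.1 (ht.trans_le (rL_bounds hm k l).2)

theorem FF_pos (m : Sq) (k l t : ℕ) : 0 < FF m k l t := Jn_pos _ _ _ _

theorem NN_pz (m : Sq) (k t : ℕ) : NN (pz k t) (zf m k t) = QT m k t := rfl

/-- the requirements of `Side` for the static level `t` -/
theorem Ss_ok (hm : m.Ok) {l t : ℕ} (ht : t < rL m k l) (o : JF → ℕ) :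
    (Ss m k l t o).Ok rk3 (Mk m k) where
  pos := Nat.mul_pos (FF_pos m k l (t + 1)) (LL_QQ_pos m k (sL m k l) t)
  cop := by
    intro f
    have h1 := rL_le_succ hm ht
    have h2 := rL_le_sL m k l
    exact Nat.Coprime.mul_left (cop_Jn_pz (Nat.sub_le _ _) (by omega) f)
      (cop_LL_pz (by omega) (by omega) f)
  ze := fun _ => le_rfl
  dep := by
    intro f y y' h
    show Key.S l t f o (mask (univ.filter (fun g => g < f)) y) =
      Key.S l t f o (mask (univ.filter (fun g => g < f)) y')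
    congr 1
    funext g
    unfold mask
    split_ifs with hg
    · exact h g (by simpa [rk3] using (mem_filter.1 hg).2)
    · rfl
  inj := by
    intro f f' y y' h
    have h' : Key.S l t f o (mask (univ.filter (fun g => g < f)) y) =
      Key.S l t f' o (mask (univ.filter (fun g => g < f')) y') := h
    injection h' with _ _ h3 _ h5
    subst h3
    refine ⟨rfl, fun g hg => ?_⟩
    have h6 := congrFun h5 g
    have hg' : g ∈ univ.filter (fun g => g < f) :=
      mem_filter.2 ⟨mem_univ _, by simpa [rk3] using hg⟩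
    unfold mask at h6
    rwa [if_pos hg', if_pos hg'] at h6
  size := fun _ _ => rfl

theorem cs_lt (m : Sq) (k l t : ℕ) (w : Key → ℕ) (o : JF → ℕ) (y : Fin 3 → ℕ) :
    cs m k l t w o y < FF m k l (t + 1) * LL (QQ m k (sL m k l)) (t + 1) := by
  rw [LL_succ, ← mul_assoc]
  exact fc_lt _ _ _ (Nat.mul_pos (FF_pos m k l (t + 1)) (LL_QQ_pos m k (sL m k l) t)) _ _

theorem cs_dvd (m : Sq) (k l t : ℕ) (w : Key → ℕ) (o : JF → ℕ) (y : Fin 3 → ℕ) :
    FF m k l (t + 1) * LL (QQ m k (sL m k l)) t ∣ cs m k l t w o y := dvd_fc _ _ _ _ _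

theorem cs_cast (hm : m.Ok) {l t : ℕ} (ht : t < rL m k l) (w : Key → ℕ) (o : JF → ℕ)
    (y : Fin 3 → ℕ) (f : Fin 3) :
    ((cs m k l t w o y : ℕ) : ZMod (pz k (sL m k l - t) f ^ zf m k (sL m k l - t) f)) =
      Lg (pz k (sL m k l - t) f) (zf m k (sL m k l - t) f) (y f) +
        ((w (Key.S l t f o (mask (univ.filter (fun g => g < f)) y)) : ℕ) :
          ZMod (pz k (sL m k l - t) f ^ zf m k (sL m k l - t) f)) :=
  fc_cast (p := pz k (sL m k l - t)) _ _ _ (Ss_ok hm ht o).cop _ _ f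

theorem Ys_adm (m : Sq) (k l t : ℕ) :
    Adm (pz k (sL m k l - t)) (zf m k (sL m k l - t)) (Ys m k l t) := by
  intro y hy f
  exact mem_T1.1 (Pool.Agent.Helper84.T5g.mem_T1_of_Ys hy f)

/-! ## the joint level -/

theorem c0_lt (m : Sq) (k l : ℕ) (w : Key → ℕ) (x : JF → ℕ) : c0 m k l w x < FF m k l 0 := by
  exact cv_lt _ _ _ _

theorem c0_cast (m : Sq) (k l : ℕ) (w : Key → ℕ) (x : JF → ℕ) (i : JF) :
    ((c0 m k l w x : ℕ) : ZMod (pJ k (sL m k l) i ^ aJ m k (sL m k l) (ef m k l 0) i)) =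
      Lg (pJ k (sL m k l) i) (aJ m k (sL m k l) (ef m k l 0) i) (x i) +
        ((w (Key.J l i (maskJ (preJ m k l i) x)) : ℕ) :
          ZMod (pJ k (sL m k l) i ^ aJ m k (sL m k l) (ef m k l 0) i)) :=
  cv_cast_comp (pJ_prime k (sL m k l)) (pJ_inj k (sL m k l)) _ _ i

theorem mem_XJ {l : ℕ} {x : JF → ℕ} (hx : x ∈ XJ m k l) (i : JF) :
    (x i = 1 ∧ aJ m k (sL m k l) l i = 0) ∨ (aJ m k (sL m k l) l i ≠ 0 ∧ (x i).Prime ∧
      (x i).Coprime (pJ k (sL m k l) i) ∧ x i ^ 2 < pJ k (sL m k l) i ^ aJ m k (sL m k l) l i) := by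
  have h := (Fintype.mem_piFinset.1 hx) i
  by_cases h0 : aJ m k (sL m k l) l i = 0
  · rw [if_pos h0, mem_singleton] at h
    exact Or.inl ⟨h, h0⟩
  · rw [if_neg h0] at h
    exact Or.inr ⟨h0, mem_T1.1 h⟩

/-! ## divisibility along the fronts -/

theorem ef_anti (hm : m.Ok) (l : ℕ) {t t' : ℕ} (h : t ≤ t') : ef m k l t' ≤ ef m k l t :=
  ez_le hm (Nat.sub_le_sub_left h _) l

theorem FF_dvd_FF (hm : m.Ok) (l : ℕ) {t t' : ℕ} (h : t ≤ t') : FF m k l t' ∣ FF m k l t :=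
  Jn_dvd m k _ (ef_anti hm l h)

theorem Jn_dvd_FF (hm : m.Ok) {l x : ℕ} (hx : x ≤ l) (t : ℕ) :
    Jn m k (sL m k l) x ∣ FF m k l t := Jn_dvd m k _ (hx.trans (lt_ef hm l t).le)

/-- two states with the same split levels -/
theorem FF_dvd_FF' {l' l : ℕ} (h : l' ≤ l) (hs : sL m k l' = sL m k l) (t : ℕ) :
    FF m k l' t ∣ FF m k l t := by
  unfold Pool.Agent.Helper84.T5g.FF Pool.Agent.Helper84.T5g.ef
  rw [hs]
  exact Jn_dvd m k _ (ez_mono m _ h)

end Pool.Agent.Helper48.T5g
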