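import Pool.Agent.Helper48.T5g.NumS2
import Pool.Agent.Helper54.T5g.KeysOf
import Pool.Agent.Helper54.T5g.MSplit

/-!
# T5g: the multiplicity theorem across SPLIT for the block `CaseSplitTwo`

`mult_two`: for late pairs across SPLIT with `ef l' 0 < l` and `l - l' ≤ 8 SS m (sL m k l')`, the
number of `(x, x', y)` with `c0 x + cs y + c0' x' = s` is at most `2 (2 BP k) ^ 10 (1024 BP k l / SS + 1) ^ 2` for all
`s`, up to probability `exp (- 2 l)`.
-/

set_option autoImplicit false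

namespace Pool.Agent.Helper48.T5g

open Finset Pool.Agent.Helper27.T4 Pool.Agent.Helper37.T5g
open Pool.Agent.Helper5.ET (pr pr_prime pr_inj bb era own cnt Nj ordK iso pre mask)
open Pool.Agent.Helper27.T5b Pool.Agent.Helper30.T5g
open Pool.Agent.Helper22.HW Pool.Agent.Helper22.SL Pool.Agent.Helper57.T5 Pool.Agent.Helper39.T5
open Pool.Agent.Helper84.T5g (JF Key pJ aJ Jn mL sL bL rL QQ ef FF cmp0 c0 XJ okeyF okey Ss cs Ys Un
  Vw pJ_prime pJ_inj preJ maskJ Mk keysOf Bd)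
open Pool.Agent.Helper54.T5g (SplitDig lowJ keyL MSp XJ_lt okey_lt J_mem Skey_mem mask_lt Bd_pos)
open Pool.Agent.Helper98.T5g (M0)
open Pool.Agent.Helper27.T5 (gw)

variable {m : Sq} {k : ℕ}

/-- size of the fresh modulus -/
theorem q_le_two {l' l : ℕ} (hm : m.Ok) (hS : SS m (sL m k l) ≤ l) :
    (M0 m k l' l).q ≤ BP k ^ (2 * l) := by
  have h1 : (M0 m k l' l).q = Pool.Agent.Helper5.ET.pr
      (fam (era (mL m k l) + 2)) ^ aJ m k (sL m k l) (ef m k l 0)
        (Sum.inl (fam (era (mL m k l) + 2))) := rfl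
  rw [h1]
  have h2 : aJ m k (sL m k l) (ef m k l 0) (Sum.inl (fam (era (mL m k l) + 2))) ≤
      ef m k l 0 := by
    rw [Pool.Agent.Helper54.T5g.aJ_inl]
    unfold Pool.Agent.Helper27.T5b.ct
    exact (card_filter_le _ _).trans (card_range _).le
  have h3 : ef m k l 0 ≤ l + SS m (sL m k l) := by
    have e1 := Pool.Agent.Helper48.T5g.ef_le (k := k) hm l 0
    have e2 := Pool.Agent.Helper48.T5g.ez_le_SS hm (sL m k l) l
    omega
  calc Pool.Agent.Helper5.ET.pr (fam (era (mL m k l) + 2)) ^ _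
      ≤ BP k ^ aJ m k (sL m k l) (ef m k l 0)
        (Sum.inl (fam (era (mL m k l) + 2))) :=
        Nat.pow_le_pow_left (Pool.Agent.Helper30.T5g.pr_le_BP k _) _
    _ ≤ _ := Nat.pow_le_pow_right (Pool.Agent.Helper30.T5g.BP_pos k) (by omega)

/-- every quantity in the bound is at most `exp (C l)` -/
theorem sizes_two (hm : m.Ok) (k : ℕ) : ∃ l0 : ℕ, ∀ l' l, l0 ≤ l' → l' < l →
    SplitEv m k (mL m k l') (mL m k l) →
    (M0 m k l' l).q ≤ BP k ^ (2 * l) ∧
    FF m k l 0 ≤ RT m k k * BP k ^ (2 * l) ∧ FF m k l 1 ≤ RT m k k * BP k ^ (2 * l) ∧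
    Jn m k (sL m k l) (ef m k l' 0) ≤ RT m k k * BP k ^ (2 * l) := by
  obtain ⟨lc, hc⟩ := Pool.Agent.Helper30.T5g.exists_late (k := k) hm 1 0
  refine ⟨lc, fun l' l hl' hl hev => ?_⟩
  obtain ⟨p1, p2, p3, -, p5⟩ := hc l (by omega)
  have hP := SplitP_of hm hl.le hev
  obtain ⟨s, hs⟩ : ∃ s, Pool.Agent.Helper37.T5g.lv m k (era (mL m k l)) = s := ⟨_, rfl⟩
  rw [hs] at hP
  have hs1 := hP.s1
  have hs' := hP.s'
  have hC : ∀ x, l' ≤ x → x ≤ ez m (sL m k l) l →
      NL m k x = RT m k (sL m k l) * Jn m k (sL m k l) x := by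
    intro x hx1 hx2
    rw [hs1]
    have e1 := ez_le_SS hm (s + 1) l
    rw [hs1] at hx2
    exact NL_eq_Jn ((hP.win x hx1 (by omega)).cpl_succ hm (by rw [hs']))
  have hSS1 : SS m (sL m k l + 1) ≤ mL m k l := Pool.Agent.Helper30.T5g.SS_sv_succ_le' hm p2 p3
  have hmLl : mL m k l ≤ l := Pool.Agent.Helper27.T5b.l1_le (ins m k) l
  have hSSl : SS m (sL m k l) ≤ l := (SS_mono m (Nat.le_succ _)).trans (hSS1.trans hmLl)
  have hBP := Pool.Agent.Helper30.T5g.BP_pos k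
  have key : ∀ x, l' ≤ x → x ≤ ez m (sL m k l) l →
      Jn m k (sL m k l) x ≤ RT m k k * BP k ^ (2 * l) := by
    intro x hx1 hx2
    have h1 := ez_le_SS hm (sL m k l) l
    have h2 : Jn m k (sL m k l) x ≤ NL m k x := by
      rw [hC x hx1 hx2]
      exact Nat.le_mul_of_pos_left _ (Pool.Agent.Helper30.T5g.RT_pos _ _ _)
    refine h2.trans ((Pool.Agent.Helper30.T5g.NL_le_pow m k x).trans ?_)
    exact Nat.mul_le_mul_left _ (Nat.pow_le_pow_right hBP (by omega))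
  refine ⟨q_le_two (l' := l') hm hSSl, ?_, ?_, ?_⟩
  · have e : FF m k l 0 = Jn m k (s + 1) (ez m (s + 1) l) := by
      have := hP.FF_upper 0
      simpa using this
    rw [e, ← hs1]
    refine key _ ?_ le_rfl
    have := lt_ez hm (sL m k l) l
    omega
  · have e := hP.FF_upper 1
    rw [e, ← hs1]
    refine key _ ?_ (ez_le hm (by omega) l)
    have := lt_ez hm (sL m k l - 1) l
    omega
  · refine key _ (lt_ef hm l' 0).le ?_
    have e : ef m k l' 0 = ez m s l' := by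
      have := hP.ef_lower 0
      simpa using this
    rw [e, hs1]
    exact (ez_mono m s hl.le).trans (ez_le hm (Nat.le_succ s) l)

theorem six_RT_le (m : Sq) (k : ℕ) {l : ℕ} (hl : RT m k k + 1 ≤ l) :
    (6 * RT m k k : ℝ) * (BP k : ℝ) ^ (10 * l) ≤ Real.exp (12 * BP k * l) := by
  have hB := Pool.Agent.Helper30.T5g.million_lt_BP k
  have hBr : (0 : ℝ) < BP k := by
    have : 0 < BP k := by omega
    exact_mod_cast this
  have h1 : RT m k k ≤ BP k ^ l := by
    have e1 : RT m k k ≤ 2 ^ RT m k k := Nat.lt_two_pow_self.le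
    have e2 : 2 ^ RT m k k ≤ BP k ^ RT m k k := Nat.pow_le_pow_left (by omega) _
    exact e1.trans (e2.trans (Nat.pow_le_pow_right (by omega) (by omega)))
  have h2 : 6 * RT m k k * BP k ^ (10 * l) ≤ BP k ^ (12 * l) := by
    calc 6 * RT m k k * BP k ^ (10 * l) ≤ BP k ^ l * BP k ^ l * BP k ^ (10 * l) := by
          refine Nat.mul_le_mul_right _ (Nat.mul_le_mul ?_ h1)
          exact (show 6 ≤ BP k by omega).trans (Nat.le_self_pow (by omega) _)
      _ = BP k ^ (12 * l) := by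
          rw [← pow_add, ← pow_add]
          congr 1
          omega
  have h3 : (BP k : ℝ) ^ (12 * l) ≤ Real.exp (12 * BP k * l) := by
    have e3 : (12 : ℝ) * BP k * l = ((12 * l : ℕ) : ℝ) * BP k := by
      push_cast
      ring
    rw [e3, Real.exp_nat_mul]
    refine pow_le_pow_left₀ hBr.le ?_ _
    have := Real.add_one_le_exp (BP k : ℝ)
    linarith
  refine le_trans ?_ h3
  exact_mod_cast h2

theorem bound_aux {F P T q Y X E : ℝ} (hF : F ≤ 3 * (X * Y) * Y) (hP : P ≤ Y) (hT : T ≤ Y)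
    (hq : q ≤ Y) (hP0 : 0 ≤ P) (hT0 : 0 ≤ T) (hq0 : 0 ≤ q) (hX : 0 ≤ X)
    (hE : 0 ≤ E) : F * (P * ((q * q) * E) + (q * q * T) * E) ≤
      (3 * (X * Y) * Y) * (Y * ((Y * Y) * E) + (Y * Y * Y) * E) := by
  have hY : 0 ≤ Y := hq0.trans hq
  have h1 : q * q ≤ Y * Y := mul_le_mul hq hq hq0 hY
  have h2 : 0 ≤ q * q := mul_nonneg hq0 hq0
  refine mul_le_mul hF ?_ (by positivity) (by positivity)
  refine add_le_add ?_ ?_
  · refine mul_le_mul hP ?_ (by positivity) hY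
    exact mul_le_mul_of_nonneg_right h1 hE
  · refine mul_le_mul_of_nonneg_right ?_ hE
    exact mul_le_mul h1 hT hT0 (by positivity)

/-- **the multiplicity theorem across SPLIT** for all distances up to `8 SS` -/
theorem mult_two (hm : m.Ok) (k : ℕ) [hQ : Pool.Agent.Helper30.T5g.BigQ m k] :
    ∃ l0 : ℕ, ∀ l' l, l0 ≤ l' → l' < l →
    SplitEv m k (mL m k l') (mL m k l) → l - l' ≤ 8 * SS m (sL m k l') →
    ez m (sL m k l') l' ≠ ez m (sL m k l') l →
    ∀ K : Finset Key, (∀ x ∈ XJ m k l, ∀ i, Key.J l i (maskJ (preJ m k l i) x) ∈ K) →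
    (∀ x ∈ XJ m k l', ∀ i, Key.J l' i (maskJ (preJ m k l' i) x) ∈ K) →
    (∀ x ∈ XJ m k l, ∀ y ∈ Ys m k l 0, ∀ f,
      Key.S l 0 f (okey m k l 0 x) (mask (univ.filter (fun g => g < f)) y) ∈ K) →
    PrG (Mk m k) K (fun w => ∃ s, 2 * (2 * BP k) ^ 10 *
      (1024 * BP k * l / SS m (sL m k l') + 1) ^ 2 <
      (((XJ m k l ×ˢ XJ m k l') ×ˢ Ys m k l 0).filter (fun z =>
        c0 m k l w z.1.1 + cs m k l 0 w (okey m k l 0 z.1.1) z.2 + c0 m k l' w z.1.2 = s)).card)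
      (Real.exp (-(2 * (l : ℝ)))) := by
  obtain ⟨la, ha⟩ := s2_fin hm k
  obtain ⟨lb, hb⟩ := sizes_two hm k
  obtain ⟨lc, hc⟩ := Pool.Agent.Helper30.T5g.exists_late (k := k) hm 1 0
  refine ⟨la + lb + lc + RT m k k + 1, ?_⟩
  intro l' l hl' hl hev hD hne K hK hK' hK2
  obtain ⟨p1, p2, p3, -, p5⟩ := hc l (by omega)
  obtain ⟨p1', p2', p3', -, p5'⟩ := hc l' (by omega)
  obtain ⟨n1, n2, n3, n4, n5⟩ := ha l' l (by omega) hl hev hD hne
  obtain ⟨b1, b2, b3, b4⟩ := hb l' l (by omega) hl hev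
  have hd := SplitDig_of hm hl hev
  have hP := SplitP_of hm hl.le hev
  have hr : 0 < rL m k l := by
    rw [hP.rL1]
    omega
  have hS := SS_pos m (sL m k l')
  set a := SS m (sL m k l') with ha'
  set E := Real.exp (-(a : ℝ) / 64) with hE
  have hE0 : 0 < E := Real.exp_pos _
  set mm := 1024 * BP k * l / a with hmm
  have hmain := Pool.Agent.Helper98.T5g.mult_inst hm hd hr n1 n2 n3 (K := K)
    hK hK' hK2 hE0.le hE0.le n4 n5 mm mm
  refine PrG_mono ?_ ?_ hmain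
  · rintro r _ ⟨s, hs⟩
    refine ⟨s, lt_of_le_of_lt ?_ hs⟩
    have e1 : (M0 m k l' l).C ≤ (2 * BP k) ^ 7 :=
      Pool.Agent.Helper12.T5g.MSp_C_le (m := m) (l' := l') (l := l) (o := 0) (o' := 0)
    have e2 : ∏ f, (2 * (pz k (sL m k l) f - 1)) ≤ (2 * BP k) ^ 3 := by
      refine (Finset.prod_le_pow_card _ _ (2 * BP k) (fun i _ => ?_)).trans (le_of_eq ?_)
      · have := Pool.Agent.Helper30.T5g.pz_le k (sL m k l) i
        omega
      · rw [Finset.card_univ, Fintype.card_fin]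
    calc 2 * ((M0 m k l' l).C * ∏ f, (2 * (pz k (sL m k l) f - 1))) * (mm + 1) * mm
        ≤ 2 * ((2 * BP k) ^ 7 * (2 * BP k) ^ 3) * (mm + 1) * (mm + 1) := by
          gcongr
          omega
      _ = _ := by
          rw [← pow_add]
          ring
  · have hl1 : 1 ≤ l := by omega
    set q := (M0 m k l' l).q with hq
    set Y := BP k ^ (2 * l) with hY
    have hY1 : 1 ≤ Y := Nat.one_le_pow _ _ (Pool.Agent.Helper30.T5g.BP_pos k)
    have hQY : QQ m k (sL m k l) 0 ≤ Y := n2.trans b1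
    have hQe : QQ m k (sL m k l) 0 = ∏ f, QF m k (sL m k l) f := rfl
    have hpos : ∀ f, 0 < pz k (sL m k l) f ^ zf m k (sL m k l) f := fun f =>
      pow_pos (Pool.Agent.Helper84.T5g.pz_prime k _ f).pos _
    have hQ3 : QQ m k (sL m k l) 0 = pz k (sL m k l) 0 ^ zf m k (sL m k l) 0 *
        pz k (sL m k l) 1 ^ zf m k (sL m k l) 1 * pz k (sL m k l) 2 ^ zf m k (sL m k l) 2 := by
      rw [hQe, Fin.prod_univ_three]
      rfl
    have hP01 : pz k (sL m k l) 0 ^ zf m k (sL m k l) 0 *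
        pz k (sL m k l) 1 ^ zf m k (sL m k l) 1 ≤ Y := by
      refine le_trans ?_ hQY
      rw [hQ3]
      exact Nat.le_mul_of_pos_right _ (hpos 2)
    have hP2 : pz k (sL m k l) 2 ^ zf m k (sL m k l) 2 ≤ Y := by
      refine le_trans ?_ hQY
      rw [hQ3]
      exact Nat.le_mul_of_pos_left _ (Nat.mul_pos (hpos 0) (hpos 1))
    have hlow := Pool.Agent.Helper98.T5g.FF_low hd
    have hF : FF m k l 0 + FF m k l 1 * QQ m k (sL m k l) 0 + FF m k l' 0 ≤
        3 * (RT m k k * Y) * Y := by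
      rw [hlow]
      have c1 : FF m k l 0 ≤ RT m k k * Y * Y := b2.trans (Nat.le_mul_of_pos_right _ hY1)
      have c2 : FF m k l 1 * QQ m k (sL m k l) 0 ≤ RT m k k * Y * Y := Nat.mul_le_mul b3 hQY
      have c3 : Jn m k (sL m k l) (ef m k l' 0) * QQ m k (sL m k l) 0 ≤ RT m k k * Y * Y :=
        Nat.mul_le_mul b4 hQY
      linarith
    have hFR : ((FF m k l 0 + FF m k l 1 * QQ m k (sL m k l) 0 + FF m k l' 0 : ℕ) : ℝ) ≤
        3 * (RT m k k * Y) * Y := by exact_mod_cast hF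
    have hP01R : ((pz k (sL m k l) 0 ^ zf m k (sL m k l) 0 *
        pz k (sL m k l) 1 ^ zf m k (sL m k l) 1 : ℕ) : ℝ) ≤ Y := by exact_mod_cast hP01
    have hP2R : ((pz k (sL m k l) 2 ^ zf m k (sL m k l) 2 : ℕ) : ℝ) ≤ Y := by exact_mod_cast hP2
    have hqR : (q : ℝ) ≤ Y := by exact_mod_cast b1
    have hE1 : E ^ (mm + 1) ≤ Real.exp (-((2 + 12 * BP k) * l)) := by
      have g1 : 1024 * BP k * l < a * (1024 * BP k * l / a + 1) := Nat.lt_mul_div_succ _ hS
      rw [← hmm] at g1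
      have g2 : (1024 : ℝ) * BP k * l ≤ a * (mm + 1) := by exact_mod_cast g1.le
      have g4 : (1 : ℝ) ≤ BP k := by exact_mod_cast Pool.Agent.Helper30.T5g.BP_pos k
      have g5 : (0 : ℝ) ≤ l := Nat.cast_nonneg _
      have g3 : 64 * (2 + 12 * (BP k : ℝ)) * l ≤ a * (mm + 1) := by
        refine le_trans ?_ g2
        nlinarith
      rw [hE, ← Real.exp_nat_mul]
      refine Real.exp_le_exp.2 ?_
      push_cast
      linarith
    have hEp : 0 ≤ E ^ (mm + 1) := (pow_pos hE0 _).le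
    have hY0 : (0 : ℝ) ≤ Y := Nat.cast_nonneg _
    have hR0 : (0 : ℝ) ≤ RT m k k := Nat.cast_nonneg _
    have hq0 : (0 : ℝ) ≤ q := Nat.cast_nonneg _
    calc ((FF m k l 0 + FF m k l 1 * QQ m k (sL m k l) 0 + FF m k l' 0 : ℕ) : ℝ) *
        (((pz k (sL m k l) 0 ^ zf m k (sL m k l) 0 *
          pz k (sL m k l) 1 ^ zf m k (sL m k l) 1 : ℕ) : ℝ) *
          ((((q : ℝ) * q) * E ^ (mm + 1))) +
        ((q : ℝ) * q * ((pz k (sL m k l) 2 ^ zf m k (sL m k l) 2 : ℕ) : ℝ)) * E ^ (mm + 1))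
        ≤ (3 * (RT m k k * Y) * Y) * ((Y : ℝ) * ((((Y : ℝ) * Y) * E ^ (mm + 1))) +
          ((Y : ℝ) * Y * Y) * E ^ (mm + 1)) :=
          bound_aux hFR hP01R hP2R hqR (Nat.cast_nonneg _) (Nat.cast_nonneg _) hq0 hR0 hEp
      _ = (6 * RT m k k : ℝ) * (BP k : ℝ) ^ (10 * l) * E ^ (mm + 1) := by
          have e1 : (Y : ℝ) = (BP k : ℝ) ^ (2 * l) := by
            rw [hY]
            push_cast
            rfl
          have e2 : (BP k : ℝ) ^ (10 * l) = ((BP k : ℝ) ^ (2 * l)) ^ 5 := by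
            rw [← pow_mul]
            congr 1
            ring
          rw [e2, e1]
          ring
      _ ≤ Real.exp (12 * BP k * l) * Real.exp (-((2 + 12 * BP k) * l)) := by
          refine mul_le_mul (six_RT_le m k (by omega)) hE1 hEp (Real.exp_pos _).le
      _ = _ := by
          rw [← Real.exp_add]
          congr 1
          ring

end Pool.Agent.Helper48.T5g
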