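import Pool.Agent.Helper48.T5g.TwoNum
import Pool.Agent.Helper21.T5g.SZGlue
import Pool.Agent.Helper21.T5g.SZNumI
import Pool.Agent.Helper12.T5g.SZKey
import Pool.Agent.Helper45.T5g.SZW
import Pool.Agent.Helper53.T5g.EndI
import Pool.Agent.Helper22.NEAR.Glue
import Pool.Agent.Helper98.S3Pg.Top

/-!
# T5g, line 10: `Blk TwoNear RpC`, short distance above the joint front of the lower state
-/

set_option autoImplicit false

namespace Pool.Agent.Helper48.T5g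

open Finset Pool.Agent.Helper37.T5g
open Pool.Agent.Helper22.SL
open Pool.Agent.Helper84.T5g
open Pool.Agent.Helper21.T5g
open Pool.Agent.Helper98.S3Pg (TwoNear)
open Pool.Agent.Helper30.T5g (ez BP)

/-- **`Blk TwoNear RpC`** -/
theorem blk_twoNear : Blk TwoNear RpC := by
  classical
  obtain ⟨E1, hP⟩ := pair_of
  obtain ⟨E2, hE⟩ := Pool.Agent.Helper53.T5g.endI
  refine ⟨20 + (E2 + E1), 3, fun m hF hk => ?_⟩
  have hQ := Pool.Agent.Helper30.T5g.bigQ_of_okF hF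
  have hm0 : m.Ok := hF.toOk
  have hk2 : 2 ≤ m.k := hF.k2
  have hKI := Pool.Agent.Helper12.T5g.keyI hm0 hk
  obtain ⟨K1, hP⟩ := hP m hF hKI (numI hm0 hk2) (Pool.Agent.Helper45.T5g.ppI hm0 hk2)
  obtain ⟨K2, hKI⟩ := hKI
  obtain ⟨K3, hE⟩ := hE m hF
  obtain ⟨K4, hM⟩ := mult_two hm0 m.k
  obtain ⟨K5, hMl⟩ := mult_le hF
  obtain ⟨K6, hSZ⟩ := exists_SZ2 hm0 m.k
  obtain ⟨K7, hlast⟩ := Pool.Agent.Helper22.NEARg.exists_sqrt_le_SS_bL hF
  refine ⟨K1 + K2 + K3 + K4 + K5 + K6 + K7 + 1, 1 / 2, 11, by norm_num, by norm_num, ?_⟩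
  intro l l' hl' hll _ hp K hK hK'
  obtain ⟨⟨hNr, hSp, hi, h8⟩, h7⟩ := hp
  have h := hSZ l l' (by omega) hll hNr hSp hi h7
  have hlt : l' < l := h.lt
  have hev := h.ev
  obtain ⟨N, e3, e4, e5⟩ := hE _ l' l (by omega) h
  obtain ⟨-, ⟨k1, k2, k3⟩, -, -⟩ := hKI _ l' l (by omega) h
  have hne : ez m (sL m m.k l') l' ≠ ez m (sL m m.k l') l := h.jump 1 le_rfl (by omega)
  have hmult := hM l' l (by omega) hlt hev h8.le hne (keysV m m.k l l') k1 k2 k3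
  have hmain := hP _ l' l (by omega) h K hK hK'
    (2 * (2 * BP m.k) ^ 10 * (1024 * BP m.k * l / SS m (sL m m.k l') + 1) ^ 2)
    (Real.exp (-(2 * (l : ℝ)))) (Real.exp_pos _).le hmult N e3 e4
  have hCI := hMl l' l (by omega) hll hev
  have hl1 : (1 : ℝ) ≤ l := by exact_mod_cast (show 1 ≤ l by omega)
  have e1 := hlast l l (by omega) (by omega)
  rw [← Pool.Agent.Helper22.NEAR.PrG_iff_PrLe]
  refine PrG_mono ?_ ?_ hmain
  · rintro r _ ⟨c, ⟨n, rfl⟩, hc⟩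
    refine ⟨n, lt_of_le_of_lt ?_ hc⟩
    calc 2 * (2 * BP m.k) ^ 10 * (1024 * BP m.k * l / SS m (sL m m.k l') + 1) ^ 2 *
          ((N + 1) ^ 256 * 2 ^ (E1 * m.q 0)) ≤
        2 ^ (20 * m.q 0) * (2 ^ (E2 * m.q 0) * 2 ^ (E1 * m.q 0)) :=
          Nat.mul_le_mul hCI (Nat.mul_le_mul_right _ e5)
      _ = 2 ^ ((20 + (E2 + E1)) * m.q 0) := by
          rw [← pow_add, ← pow_add]
          congr 1
          ring
  · have g1 : (l : ℝ) ^ (1 / 2 : ℝ) ≤ 2 * (l : ℝ) := by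
      have := Real.rpow_le_rpow_of_exponent_le hl1 (show (1 / 2 : ℝ) ≤ 1 by norm_num)
      rw [Real.rpow_one] at this
      linarith
    have g3 : Real.exp (-(2 * (l : ℝ))) ≤ Real.exp (-((l : ℝ) ^ (1 / 2 : ℝ))) :=
      Real.exp_le_exp.2 (by linarith)
    have g4 : Real.exp (-(SS m (bL m m.k l) : ℝ)) ≤ Real.exp (-((l : ℝ) ^ (1 / 2 : ℝ))) :=
      Real.exp_le_exp.2 (neg_le_neg e1)
    linarith

end Pool.Agent.Helper48.T5g
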