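import Pool.Agent.Helper48.T5g.MultTwo
import Pool.Agent.Helper30.T5g.BigQF

/-!
# T5g, `TwoNear`: the exponent of the multiplicity
-/

set_option autoImplicit false

namespace Pool.Agent.Helper48.T5g

open Finset Pool.Agent.Helper27.T4 Pool.Agent.Helper37.T5g
open Pool.Agent.Helper5.ET (bb era)
open Pool.Agent.Helper30.T5g
open Pool.Agent.Helper84.T5g (mL sL)
open Pool.Agent.Helper99.T5g (OkF)

variable {m : Sq} {k : ℕ}

/-- the state against the size of the split level of the lower state -/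
theorem le_SS_split (hm : OkF m) (k : ℕ) : ∃ l0 : ℕ, ∀ l' l, l0 ≤ l' → l' ≤ l →
    SplitEv m k (mL m k l') (mL m k l) →
    l ≤ 2 ^ (4 * m.q 0 + 6) * SS m (sL m k l') := by
  obtain ⟨lc, hc⟩ := Pool.Agent.Helper30.T5g.exists_late (k := k) hm.toOk 1 0
  refine ⟨lc, fun l' l hl' hl hev => ?_⟩
  obtain ⟨p1, p2, p3, -, p5⟩ := hc l (by omega)
  have hP := SplitP_of hm.toOk hl hev
  have hs1 := hP.s1
  have hs' := hP.s'
  have f1 := Pool.Agent.Helper30.T5g.lt_mul_SS (k := k) (i := 1) hm.toOk p2 (by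
    show 1 ≤ sL m k l
    omega)
  have f2 : sv m k (mL m k l) - 1 = sL m k l' := by
    show sL m k l - 1 = sL m k l'
    omega
  have f3 : mL m k l < 4 * 2 ^ m.kap (sv m k (mL m k l) + 1) *
      Gq m (sv m k (mL m k l)) ^ (1 + 2) * SS m (sL m k l') := by
    rw [← f2]
    exact f1
  have f4 : 4 * 2 ^ m.kap (sv m k (mL m k l) + 1) * Gq m (sv m k (mL m k l)) ^ (1 + 2) ≤
      2 ^ (4 * m.q 0 + 5) := by
    have g1 := hm.kaple
    unfold Gq
    rw [hm.kc, hm.qc, ← pow_mul, show (4 : ℕ) = 2 ^ 2 by norm_num, ← pow_add, ← pow_add]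
    exact Nat.pow_le_pow_right (by norm_num) (by omega)
  have f5 : 1000 * l ≤ 1001 * mL m k l := p5
  have f6 : l ≤ 2 * mL m k l := by omega
  have f7 := Nat.mul_le_mul_right (SS m (sL m k l')) f4
  calc l ≤ 2 * (2 ^ (4 * m.q 0 + 5) * SS m (sL m k l')) := by omega
    _ = _ := by ring

/-- **the exponent of the multiplicity** -/
theorem mult_le (hm : OkF m) : ∃ l0 : ℕ, ∀ l' l, l0 ≤ l' → l' ≤ l →
    SplitEv m m.k (mL m m.k l') (mL m m.k l) →
    2 * (2 * BP m.k) ^ 10 * (1024 * BP m.k * l / SS m (sL m m.k l') + 1) ^ 2 ≤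
      2 ^ (20 * m.q 0) := by
  obtain ⟨l0, h0⟩ := le_SS_split hm m.k
  refine ⟨l0, fun l' l hl' hl hev => ?_⟩
  have h1 := h0 l' l hl' hl hev
  have hS : 0 < SS m (sL m m.k l') := SS_pos m _
  have g1 := hm.big
  have g2 := hm.grq
  have e1 : 2 * BP m.k ≤ 2 ^ (m.gr 0 - 39) := by
    have e2 : 2 ^ 40 * BP m.k ≤ 2 ^ 40 * (2 ^ m.gr 0) := g1.trans (Nat.le_mul_of_pos_left _ (by positivity))
    have e3 : 40 ≤ m.gr 0 := by
      by_contra hcon
      push Not at hcon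
      have e4 := Pool.Agent.Helper30.T5g.BP_pos m.k
      have e5 : 2 ^ m.gr 0 < 2 ^ 40 := Nat.pow_lt_pow_right (by norm_num) hcon
      have e6 : 2 ^ 40 * 1 ≤ 2 ^ 40 * BP m.k := Nat.mul_le_mul_left _ e4
      omega
    have e7 : 2 ^ m.gr 0 = 2 ^ 39 * 2 ^ (m.gr 0 - 39) := by
      rw [← pow_add]
      congr 1
      omega
    rw [e7] at g1
    have e8 : 2 ^ 39 * (2 * BP m.k) ≤ 2 ^ 39 * 2 ^ (m.gr 0 - 39) := by
      calc 2 ^ 39 * (2 * BP m.k) = 2 ^ 40 * BP m.k := by ring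
        _ ≤ _ := g1
    exact Nat.le_of_mul_le_mul_left e8 (by positivity)
  have e9 : 2 * BP m.k ≤ 2 ^ (m.q 0 - 400) :=
    e1.trans (Nat.pow_le_pow_right (by norm_num) (by omega))
  have e10 : 400 ≤ m.q 0 := by omega
  have h2 : 2 * (2 * BP m.k) ^ 10 ≤ 2 ^ (10 * m.q 0) := by
    calc 2 * (2 * BP m.k) ^ 10 ≤ 2 * (2 ^ (m.q 0 - 400)) ^ 10 :=
          Nat.mul_le_mul_left _ (Nat.pow_le_pow_left e9 _)
      _ = 2 ^ (1 + (m.q 0 - 400) * 10) := by rw [pow_add, pow_one, pow_mul]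
      _ ≤ _ := Nat.pow_le_pow_right (by norm_num) (by omega)
  have h3 : 1024 * BP m.k * l ≤ 2 ^ (5 * m.q 0 - 1) * SS m (sL m m.k l') := by
    calc 1024 * BP m.k * l = 512 * (2 * BP m.k) * l := by ring
      _ ≤ 512 * 2 ^ (m.q 0 - 400) * (2 ^ (4 * m.q 0 + 6) * SS m (sL m m.k l')) :=
          Nat.mul_le_mul (Nat.mul_le_mul_left _ e9) h1
      _ = 2 ^ (9 + (m.q 0 - 400) + (4 * m.q 0 + 6)) * SS m (sL m m.k l') := by
          rw [pow_add, pow_add]
          ring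
      _ ≤ _ := Nat.mul_le_mul_right _ (Nat.pow_le_pow_right (by norm_num) (by omega))
  have h4 : 1024 * BP m.k * l / SS m (sL m m.k l') ≤ 2 ^ (5 * m.q 0 - 1) :=
    Nat.div_le_of_le_mul (h3.trans (le_of_eq (Nat.mul_comm _ _)))
  have h5 : 1024 * BP m.k * l / SS m (sL m m.k l') + 1 ≤ 2 ^ (5 * m.q 0) := by
    have e11 : 1 ≤ 2 ^ (5 * m.q 0 - 1) := Nat.one_le_two_pow
    have e12 : 2 ^ (5 * m.q 0) = 2 * 2 ^ (5 * m.q 0 - 1) := by
      rw [← pow_succ']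
      congr 1
      omega
    omega
  calc 2 * (2 * BP m.k) ^ 10 * (1024 * BP m.k * l / SS m (sL m m.k l') + 1) ^ 2
      ≤ 2 ^ (10 * m.q 0) * (2 ^ (5 * m.q 0)) ^ 2 :=
        Nat.mul_le_mul h2 (Nat.pow_le_pow_left h5 _)
    _ = _ := by
        rw [← pow_mul, ← pow_add]
        congr 1
        omega

end Pool.Agent.Helper48.T5g
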